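import Pool.Agent.H92.HB.Stm

set_option autoImplicit false

/-!
# Project HB, module END
-/

namespace Pool.Agent.H45.HB

open Pool.Agent.H92.HB

/-! the proof -/

/-- the elements killed by `q` -/
def kil (A : Type) [AddCommGroup A] (q : ℕ) : AddSubgroup A := (nsmulAddMonoidHom (α := A) q).ker

theorem mem_kil {A : Type} [AddCommGroup A] {q : ℕ} {a : A} : a ∈ kil A q ↔ q • a = 0 := by
  unfold kil
  rw [AddMonoidHom.mem_ker]
  rfl

theorem kil_card (A : Type) [AddCommGroup A] (q : ℕ) :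
    (Finite {s : A // q • s = 0} ↔ Finite (kil A q)) ∧
      Nat.card {s : A // q • s = 0} = Nat.card (kil A q) := by
  have e : {s : A // q • s = 0} ≃ kil A q :=
    Equiv.subtypeEquivRight fun a => mem_kil.symm
  exact ⟨e.finite_iff, Nat.card_congr e⟩

theorem kil_mono {A : Type} [AddCommGroup A] (p : ℕ) {M M' : ℕ} (h : M ≤ M') :
    kil A (p ^ M) ≤ kil A (p ^ M') := by
  intro a ha
  rw [mem_kil] at ha ⊢
  obtain ⟨d, rfl⟩ := Nat.exists_eq_add_of_le h
  rw [pow_add, mul_comm, mul_smul, ha, smul_zero]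

theorem range_anti {A : Type} [AddCommGroup A] (p : ℕ) {M M' : ℕ} (h : M ≤ M') :
    (nsmulAddMonoidHom (α := A) (p ^ M')).range ≤ (nsmulAddMonoidHom (α := A) (p ^ M)).range := by
  rintro _ ⟨a, rfl⟩
  obtain ⟨d, rfl⟩ := Nat.exists_eq_add_of_le h
  refine ⟨p ^ d • a, ?_⟩
  change p ^ M • (p ^ d • a) = p ^ (M + d) • a
  rw [pow_add, mul_smul]

/-- a bounded function on `ℕ` has a maximum -/
theorem exists_max (c : ℕ → ℕ) (C : ℕ) (h : ∀ M, c M ≤ C) : ∃ M, ∀ M', c M' ≤ c M := by
  by_contra hh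
  push Not at hh
  have : ∀ n : ℕ, ∃ M, n ≤ c M := by
    intro n
    induction n with
    | zero => exact ⟨0, Nat.zero_le _⟩
    | succ n ih =>
      obtain ⟨M, hM⟩ := ih
      obtain ⟨M', hM'⟩ := hh M
      exact ⟨M', by omega⟩
  obtain ⟨M, hM⟩ := this (C + 1)
  have := h M
  omega

theorem part1 (p : ℕ) (hp : p.Prime) (C : ℕ) (A : Type) [AddCommGroup A] (hfg : AddGroup.FG A)
    (htf : ∀ a : A, p • a = 0 → a = 0)
    (h : ∀ M : ℕ, Finite (Quo (p ^ M) A) ∧ Nat.card (Quo (p ^ M) A) ≤ C) :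
    Finite A ∧ ¬ p ∣ Nat.card A := by
  obtain ⟨M, hM⟩ := exists_max (fun M => Nat.card (Quo (p ^ M) A)) C fun M => (h M).2
  have h1 := hM (M + 1)
  have h2 : (nsmulAddMonoidHom (α := A) (p ^ (M + 1))).range ≤
      (nsmulAddMonoidHom (α := A) (p ^ M)).range := range_anti p (Nat.le_succ M)
  have h3 := AddSubgroup.relIndex_mul_index h2
  have h4 : (nsmulAddMonoidHom (α := A) (p ^ (M + 1))).range.index ≤
      (nsmulAddMonoidHom (α := A) (p ^ M)).range.index := h1
  have f1 := (h M).1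
  have f2 := (h (M + 1)).1
  have h5 : 0 < (nsmulAddMonoidHom (α := A) (p ^ M)).range.index :=
    Nat.card_pos
  have h6 : 0 < (nsmulAddMonoidHom (α := A) (p ^ (M + 1))).range.index :=
    Nat.card_pos
  have h7 : (nsmulAddMonoidHom (α := A) (p ^ (M + 1))).range.relIndex
      (nsmulAddMonoidHom (α := A) (p ^ M)).range = 1 := by
    have h8 : (nsmulAddMonoidHom (α := A) (p ^ (M + 1))).range.relIndex
      (nsmulAddMonoidHom (α := A) (p ^ M)).range ≤ 1 := by
      by_contra h9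
      push Not at h9
      nlinarith
    have h10 : (nsmulAddMonoidHom (α := A) (p ^ (M + 1))).range.relIndex
      (nsmulAddMonoidHom (α := A) (p ^ M)).range ≠ 0 := by
      intro h0
      rw [h0, Nat.zero_mul] at h3
      omega
    omega
  rw [AddSubgroup.relIndex_eq_one] at h7
  have hinj : ∀ (k : ℕ) (a : A), p ^ k • a = 0 → a = 0 := by
    intro k
    induction k with
    | zero => intro a ha; simpa using ha
    | succ k ih =>
      intro a ha
      rw [pow_succ', mul_smul] at ha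
      exact ih a (htf _ ha)
  have hdiv : ∀ a : A, ∃ b : A, a = p • b := by
    intro a
    obtain ⟨b, hb⟩ := h7 ⟨a, rfl⟩
    refine ⟨b, ?_⟩
    have hb' : p ^ (M + 1) • b = p ^ M • a := hb
    have : p ^ M • (a - p • b) = 0 := by
      rw [smul_sub, ← mul_smul, ← pow_succ, hb', sub_self]
    exact sub_eq_zero.1 (hinj M _ this)
  have i1 : Module.Finite ℤ A := Module.Finite.iff_addGroup_fg.mpr hfg
  obtain ⟨r, hr1, hr2⟩ := Submodule.exists_sub_one_mem_and_smul_eq_zero_of_fg_of_le_smul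
    (Ideal.span {(p : ℤ)}) (⊤ : Submodule ℤ A) i1.fg_top (by
      intro a _
      obtain ⟨b, rfl⟩ := hdiv a
      have : (p : ℤ) • b ∈ Ideal.span {(p : ℤ)} • (⊤ : Submodule ℤ A) :=
        Submodule.smul_mem_smul (Ideal.mem_span_singleton_self _) trivial
      rwa [natCast_zsmul] at this)
  have hr0 : r ≠ 0 := by
    rintro rfl
    rw [Ideal.mem_span_singleton] at hr1
    have h8 : (p : ℤ) ∣ 1 := by
      have := (Dvd.dvd.neg_right hr1)
      simpa using this
    have := Int.natCast_dvd_natCast.1 (by simpa using h8 : ((p : ℕ) : ℤ) ∣ ((1 : ℕ) : ℤ))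
    exact hp.one_lt.ne' (Nat.dvd_one.1 this)
  have htor : ∀ a : A, r • a = 0 := fun a => hr2 a trivial
  have hfin : Finite A := by
    apply AddCommGroup.finite_of_fg_isAddTorsion
    intro a
    rw [isOfFinAddOrder_iff_nsmul_eq_zero]
    refine ⟨r.natAbs, Int.natAbs_pos.2 hr0, ?_⟩
    have h9 := htor a
    rcases Int.natAbs_eq r with h | h
    · rw [h, natCast_zsmul] at h9
      exact h9
    · rw [h, neg_smul, neg_eq_zero, natCast_zsmul] at h9
      exact h9
  refine ⟨hfin, ?_⟩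
  intro hdvd
  have := Fact.mk hp
  obtain ⟨a, ha⟩ := exists_prime_addOrderOf_dvd_card' p hdvd
  have h9 : p • a = 0 := by
    rw [← ha]
    exact addOrderOf_nsmul_eq_zero a
  have h10 := htf a h9
  rw [h10, addOrderOf_zero] at ha
  exact hp.one_lt.ne ha

theorem part2 (p : ℕ) (C : ℕ) (hC : 0 < C) (A : Type) [AddCommGroup A]
    (h : ∀ M : ℕ, Finite {s : A // (p ^ M : ℕ) • s = 0} ∧
      Nat.card {s : A // (p ^ M : ℕ) • s = 0} ∣ C) :
    Finite {s : A // ∃ i : ℕ, (p ^ i : ℕ) • s = 0} ∧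
      Nat.card {s : A // ∃ i : ℕ, (p ^ i : ℕ) • s = 0} ∣ C := by
  have hf : ∀ M, Finite (kil A (p ^ M)) := fun M => (kil_card A _).1.1 (h M).1
  have hc : ∀ M, Nat.card (kil A (p ^ M)) ∣ C := fun M => by
    rw [← (kil_card A _).2]
    exact (h M).2
  obtain ⟨M, hM⟩ := exists_max (fun M => Nat.card (kil A (p ^ M))) C
    fun M => Nat.le_of_dvd hC (hc M)
  have key : ∀ a : A, (∃ i : ℕ, (p ^ i : ℕ) • a = 0) ↔ p ^ M • a = 0 := by
    intro a
    constructor
    · rintro ⟨i, hi⟩
      have h1 : kil A (p ^ M) ≤ kil A (p ^ (max i M)) := kil_mono p (le_max_right _ _)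
      have h2 : kil A (p ^ M) = kil A (p ^ (max i M)) := by
        have := hf (max i M)
        exact AddSubgroup.eq_of_le_of_card_ge h1 (hM _)
      rw [← mem_kil, h2]
      exact kil_mono p (le_max_left _ _) (mem_kil.2 hi)
    · intro ha
      exact ⟨M, ha⟩
  have e : {s : A // ∃ i : ℕ, (p ^ i : ℕ) • s = 0} ≃ {s : A // (p ^ M : ℕ) • s = 0} :=
    Equiv.subtypeEquivRight key
  exact ⟨e.finite_iff.2 (h M).1, by rw [Nat.card_congr e]; exact (h M).2⟩

theorem t_END : S_END := by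
  intro p hp C hC
  refine ⟨fun A _ hfg htf h => part1 p hp C A hfg htf h, fun A _ h => part2 p C hC A h, ?_⟩
  intro A _
  constructor
  · rintro M M' hMM ⟨h1, h2⟩
    have f1 := (kil_card A _).1.1 h1
    rw [(kil_card A _).2] at h2
    have hle : kil A (p ^ M) ≤ kil A (p ^ M') := kil_mono p hMM
    refine ⟨(kil_card A _).1.2 (Finite.Set.subset (kil A (p ^ M') : Set A) hle), ?_⟩
    rw [(kil_card A _).2]
    exact (AddSubgroup.card_dvd_of_le hle).trans h2
  · rintro M M' hMM ⟨h1, h2⟩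
    have hle := range_anti (A := A) p hMM
    let f : Quo (p ^ M') A → Quo (p ^ M) A :=
      QuotientAddGroup.map _ _ (AddMonoidHom.id A) hle
    have hf : Function.Surjective f := by
      intro x
      obtain ⟨a, rfl⟩ := QuotientAddGroup.mk_surjective x
      exact ⟨QuotientAddGroup.mk a, rfl⟩
    exact ⟨Finite.of_surjective f hf, (Nat.card_le_card_of_surjective f hf).trans h2⟩

end Pool.Agent.H45.HB
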